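import Pool.Agent.H65.CM4.Targets1

/-!
# The classes of the dual points on a bilinear level set

Row A_CLS of the board `cm4_modules`: the dual points `Z` of a finite set on which the bilinear form
of the two vectors `v`, `w` is constant, and which are distinct modulo the lattice spanned by the
tensor squares of the two vectors, are at most a constant times the norm of the determinant of the two
vectors many.
-/

set_option autoImplicit false

open MeasureTheory Set Filter NumberField NumberField.InfinitePlace Pool.Agent.H65.CM4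
open scoped Real

namespace Pool.Agent.H7.CM4

section General

variable {k : Type} [Field k] [NumberField k]

open Classical in
/-- a finite set whose fibres modulo `N` have at most `m` elements -/
theorem cls_fib {α : Type} (F : Finset α) (f : α → 𝓞 k) (N : 𝓞 k) (hN : N ≠ 0) (m : ℕ)
    (h : ∀ q : 𝓞 k ⧸ (Ideal.span {N} : Ideal (𝓞 k)),
      (F.filter fun z => Ideal.Quotient.mk (Ideal.span {N}) (f z) = q).card ≤ m) :
    F.card ≤ m * Ideal.absNorm (Ideal.span {N} : Ideal (𝓞 k)) := by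
  have hb : (Ideal.span {N} : Ideal (𝓞 k)) ≠ ⊥ := by
    simpa [Ideal.span_singleton_eq_bot] using hN
  have hfin : Finite (𝓞 k ⧸ (Ideal.span {N} : Ideal (𝓞 k))) := Ideal.finiteQuotientOfFreeOfNeBot _ hb
  have hft := Fintype.ofFinite (𝓞 k ⧸ (Ideal.span {N} : Ideal (𝓞 k)))
  have h1 := Finset.card_le_mul_card_image
    (f := fun z => Ideal.Quotient.mk (Ideal.span {N} : Ideal (𝓞 k)) (f z)) F m (fun a _ => h a)
  refine h1.trans (Nat.mul_le_mul_left _ ?_)
  have h2 := Finset.card_le_univ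
    (F.image fun z => Ideal.Quotient.mk (Ideal.span {N} : Ideal (𝓞 k)) (f z))
  have h3 : Ideal.absNorm (Ideal.span {N} : Ideal (𝓞 k)) =
      Fintype.card (𝓞 k ⧸ (Ideal.span {N} : Ideal (𝓞 k))) := by
    rw [Ideal.absNorm_apply, Submodule.cardQuot_apply, Nat.card_eq_fintype_card]
  rw [h3]; exact h2

/-- a finite set separated modulo `N` -/
theorem cls_inj {α : Type} (F : Finset α) (f : α → 𝓞 k) (N : 𝓞 k) (hN : N ≠ 0)
    (h : ∀ z ∈ F, ∀ z' ∈ F, N ∣ f z - f z' → z = z') :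
    F.card ≤ Ideal.absNorm (Ideal.span {N} : Ideal (𝓞 k)) := by
  classical
  have h1 := cls_fib F f N hN 1 (fun q => by
    rw [Finset.card_le_one]
    intro z hz z' hz'
    rw [Finset.mem_filter] at hz hz'
    apply h z hz.1 z' hz'.1
    rw [← Ideal.mem_span_singleton, ← Ideal.Quotient.eq]
    rw [hz.2, hz'.2])
  rwa [one_mul] at h1

/-- the factorial is a combination of the coordinates of a vector of small content -/
theorem cls_comb (C0 : ℕ) (v : V2 k) (hv : (Ideal.span {v.1, v.2} : Ideal (𝓞 k)) ≠ ⊥)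
    (h : Ideal.absNorm (Ideal.span {v.1, v.2} : Ideal (𝓞 k)) ≤ C0) :
    ∃ a b : 𝓞 k, ((C0.factorial : ℕ) : 𝓞 k) = a * v.1 + b * v.2 := by
  have h1 := Ideal.absNorm_mem (Ideal.span {v.1, v.2} : Ideal (𝓞 k))
  have h0 : 0 < Ideal.absNorm (Ideal.span {v.1, v.2} : Ideal (𝓞 k)) := by
    rcases Nat.eq_zero_or_pos (Ideal.absNorm (Ideal.span {v.1, v.2} : Ideal (𝓞 k))) with h2 | h2
    · exact absurd (Ideal.absNorm_eq_zero_iff.mp h2) hv
    · exact h2
  obtain ⟨e, he⟩ := Nat.dvd_factorial h0 h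
  have h2 : ((C0.factorial : ℕ) : 𝓞 k) ∈ (Ideal.span {v.1, v.2} : Ideal (𝓞 k)) := by
    rw [he, Nat.cast_mul, mul_comm]
    exact Ideal.mul_mem_left _ _ h1
  obtain ⟨a, b, hab⟩ := Ideal.mem_span_pair.mp h2
  exact ⟨a, b, hab.symm⟩

end General

/-- the components of `S J v` -/
def pv {k : Type} [Field k] [NumberField k] (v : V2 k) (S : QF k) : 𝓞 k × 𝓞 k :=
  (-(S.1 * v.2) + S.2.1 * v.1, -(S.2.1 * v.2) + S.2.2 * v.1)

variable (k : Type) [Field k] [NumberField k] [IsTotallyReal k]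

/-- (CLS) the classes of the dual points on a bilinear level set. -/
theorem pf_CLS (hEMB : T_EMB k) : T_CLS k := by
  obtain ⟨-, -, hdk, -, -, hmul, hnn, -, hnm, -⟩ := hEMB
  intro C0
  obtain ⟨N, hNdef⟩ : ∃ N : 𝓞 k, N = ((C0.factorial : ℕ) : 𝓞 k) := ⟨_, rfl⟩
  obtain ⟨d, hddef⟩ : ∃ d : 𝓞 k, d = (dk k : 𝓞 k) := ⟨_, rfl⟩
  have hN0 : N ≠ 0 := by
    rw [hNdef]; exact_mod_cast (Nat.factorial_ne_zero C0)
  have hd0 : d ≠ 0 := by
    rw [hddef]; exact_mod_cast hdk.ne'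
  refine ⟨Nr ((N * d : 𝓞 k) : k) * Nr ((N ^ 2 * d : 𝓞 k) : k),
    mul_nonneg (hnn _).1 (hnn _).1, ?_⟩
  intro v w h F hδ hv hw hh hF
  obtain ⟨δ, hδdef⟩ : ∃ δ : 𝓞 k, δ = det v w := ⟨_, rfl⟩
  rw [← hδdef] at hδ
  have hδe : δ = v.1 * w.2 - v.2 * w.1 := hδdef
  have hv0 : (Ideal.span {v.1, v.2} : Ideal (𝓞 k)) ≠ ⊥ := by
    intro h0
    rw [Ideal.span_eq_bot] at h0
    have h1 := h0 v.1 (by simp)
    have h2 := h0 v.2 (by simp)
    apply hδ; rw [hδe, h1, h2]; ring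
  have hw0 : (Ideal.span {w.1, w.2} : Ideal (𝓞 k)) ≠ ⊥ := by
    intro h0
    rw [Ideal.span_eq_bot] at h0
    have h1 := h0 w.1 (by simp)
    have h2 := h0 w.2 (by simp)
    apply hδ; rw [hδe, h1, h2]; ring
  obtain ⟨a, b, hab⟩ := cls_comb C0 v hv0 hv
  obtain ⟨a', b', hab'⟩ := cls_comb C0 w hw0 hw
  rw [← hNdef] at hab hab'
  rcases F.eq_empty_or_nonempty with hFe | ⟨Z0, hZ0⟩
  · rw [hFe, Finset.card_empty, Nat.cast_zero]
    exact mul_nonneg (mul_nonneg (hnn _).1 (hnn _).1) (hnn _).1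
  -- the first class
  obtain ⟨X, hX⟩ : ∃ X : QF k → 𝓞 k, ∀ Z, X Z = a' * (pv v (Z - Z0)).1 + b' * (pv v (Z - Z0)).2 :=
    ⟨_, fun Z => rfl⟩
  have hXp : ∀ Z ∈ F, N * (pv v (Z - Z0)).1 = X Z * w.1 ∧ N * (pv v (Z - Z0)).2 = X Z * w.2 := by
    intro Z hZ
    have h1 : w.1 * (pv v (Z - Z0)).2 = w.2 * (pv v (Z - Z0)).1 := by
      have h2 := (hh Z hZ).trans (hh Z0 hZ0).symm
      simp only [hb] at h2
      simp only [pv, Prod.fst_sub, Prod.snd_sub]
      linear_combination h2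
    constructor
    · rw [hX, hab']; linear_combination (-b') * h1
    · rw [hX, hab']; linear_combination a' * h1
  have hcls : F.card ≤ Ideal.absNorm (Ideal.span {N ^ 2 * d} : Ideal (𝓞 k)) *
      Ideal.absNorm (Ideal.span {N * d * δ} : Ideal (𝓞 k)) := by
    classical
    apply cls_fib F X (N * d * δ) (mul_ne_zero (mul_ne_zero hN0 hd0) hδ)
    intro q
    rcases (F.filter fun z => Ideal.Quotient.mk (Ideal.span {N * d * δ}) (X z) = q).eq_empty_or_nonempty
      with he | ⟨Z1, hZ1⟩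
    · rw [he, Finset.card_empty]; exact Nat.zero_le _
    rw [Finset.mem_filter] at hZ1
    have hc : ∀ Z : QF k, ∃ c : 𝓞 k,
        (Z ∈ F.filter fun z => Ideal.Quotient.mk (Ideal.span {N * d * δ}) (X z) = q) →
        X Z - X Z1 = N * d * δ * c := by
      intro Z
      by_cases hZ : Z ∈ F.filter fun z => Ideal.Quotient.mk (Ideal.span {N * d * δ}) (X z) = q
      · have hZ' := hZ
        rw [Finset.mem_filter] at hZ'
        have h1 : Ideal.Quotient.mk (Ideal.span {N * d * δ}) (X Z) =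
            Ideal.Quotient.mk (Ideal.span {N * d * δ}) (X Z1) := by rw [hZ'.2, hZ1.2]
        rw [Ideal.Quotient.eq, Ideal.mem_span_singleton] at h1
        obtain ⟨c, hc⟩ := h1
        exact ⟨c, fun _ => hc⟩
      · exact ⟨0, fun h => absurd h hZ⟩
    choose c hc using hc
    obtain ⟨T, hT⟩ : ∃ T : QF k → QF k, ∀ Z, T Z = Z - Z1 - (d * c Z) • sqo w := ⟨_, fun Z => rfl⟩
    have hT0 : ∀ Z ∈ F.filter fun z => Ideal.Quotient.mk (Ideal.span {N * d * δ}) (X z) = q,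
        (T Z).1 * v.2 = (T Z).2.1 * v.1 ∧ (T Z).2.1 * v.2 = (T Z).2.2 * v.1 := by
      intro Z hZ
      have hZF := (Finset.mem_filter.mp hZ).1
      obtain ⟨h1, h2⟩ := hXp Z hZF
      obtain ⟨h3, h4⟩ := hXp Z1 hZ1.1
      have h5 := hc Z hZ
      simp only [pv, Prod.fst_sub, Prod.snd_sub] at h1 h2 h3 h4
      rw [hδe] at h5
      constructor
      · apply mul_left_cancel₀ hN0
        rw [hT]
        simp only [sqo, Prod.fst_sub, Prod.snd_sub, Prod.smul_fst, Prod.smul_snd, smul_eq_mul]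
        linear_combination (-1) * h1 + h3 - w.1 * h5
      · apply mul_left_cancel₀ hN0
        rw [hT]
        simp only [sqo, Prod.fst_sub, Prod.snd_sub, Prod.smul_fst, Prod.smul_snd, smul_eq_mul]
        linear_combination (-1) * h2 + h4 - w.2 * h5
    obtain ⟨Y, hY⟩ : ∃ Y : QF k → 𝓞 k, ∀ Z, Y Z =
      a ^ 2 * (T Z).1 + 2 * a * b * (T Z).2.1 + b ^ 2 * (T Z).2.2 := ⟨_, fun Z => rfl⟩
    have hYT : ∀ Z ∈ F.filter fun z => Ideal.Quotient.mk (Ideal.span {N * d * δ}) (X z) = q,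
        N ^ 2 * (T Z).1 = Y Z * v.1 ^ 2 ∧ N ^ 2 * (T Z).2.1 = Y Z * (v.1 * v.2) ∧
          N ^ 2 * (T Z).2.2 = Y Z * v.2 ^ 2 := by
      intro Z hZ
      obtain ⟨h1, h2⟩ := hT0 Z hZ
      rw [hY, hab]
      refine ⟨?_, ?_, ?_⟩
      · linear_combination (2 * a * b * v.1 + b ^ 2 * v.2) * h1 + (b ^ 2 * v.1) * h2
      · linear_combination (-(a ^ 2 * v.1)) * h1 + (b ^ 2 * v.2) * h2
      · linear_combination (-(a ^ 2 * v.2)) * h1 - (a ^ 2 * v.1 + 2 * a * b * v.2) * h2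
    apply cls_inj _ Y (N ^ 2 * d) (mul_ne_zero (pow_ne_zero 2 hN0) hd0)
    intro Z hZ Z' hZ' hdv
    obtain ⟨e, he⟩ := hdv
    obtain ⟨h1, h2, h3⟩ := hYT Z hZ
    obtain ⟨h1', h2', h3'⟩ := hYT Z' hZ'
    have hN2 : N ^ 2 ≠ 0 := pow_ne_zero 2 hN0
    have k1 : (T Z).1 - (T Z').1 = d * e * v.1 ^ 2 := by
      apply mul_left_cancel₀ hN2
      linear_combination h1 - h1' + v.1 ^ 2 * he
    have k2 : (T Z).2.1 - (T Z').2.1 = d * e * (v.1 * v.2) := by
      apply mul_left_cancel₀ hN2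
      linear_combination h2 - h2' + (v.1 * v.2) * he
    have k3 : (T Z).2.2 - (T Z').2.2 = d * e * v.2 ^ 2 := by
      apply mul_left_cancel₀ hN2
      linear_combination h3 - h3' + v.2 ^ 2 * he
    apply hF Z (Finset.mem_filter.mp hZ).1 Z' (Finset.mem_filter.mp hZ').1 e (c Z' - c Z)
    rw [← hddef]
    rw [hT, hT] at k1 k2 k3
    simp only [sqo, Prod.fst_sub, Prod.snd_sub, Prod.smul_fst, Prod.smul_snd, smul_eq_mul]
      at k1 k2 k3
    refine Prod.ext ?_ (Prod.ext ?_ ?_)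
    · simp only [sqo, Prod.fst_sub, Prod.snd_sub, Prod.smul_fst, Prod.smul_snd, smul_eq_mul]
      linear_combination k1
    · simp only [sqo, Prod.fst_sub, Prod.snd_sub, Prod.smul_fst, Prod.smul_snd, smul_eq_mul]
      linear_combination k2
    · simp only [sqo, Prod.fst_sub, Prod.snd_sub, Prod.smul_fst, Prod.smul_snd, smul_eq_mul]
      linear_combination k3
  have hc1 : (F.card : ℝ) ≤ nm (Ideal.span {N ^ 2 * d} : Ideal (𝓞 k)) *
      nm (Ideal.span {N * d * δ} : Ideal (𝓞 k)) := by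
    simp only [nm]; exact_mod_cast hcls
  rw [hnm, hnm] at hc1
  have h5 : ((N * d * δ : 𝓞 k) : k) = ((N * d : 𝓞 k) : k) * (δ : k) := rfl
  rw [h5, hmul] at hc1
  rw [← hδdef]
  calc (F.card : ℝ) ≤ Nr ((N ^ 2 * d : 𝓞 k) : k) * (Nr ((N * d : 𝓞 k) : k) * Nr (δ : k)) := hc1
    _ = _ := by ring

end Pool.Agent.H7.CM4
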